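import Pool.Agent.Helper880_LF.Cheb4

/-!
# The smallest subtorsor containing the period matrix is the torsor of motivated periods, for all members of a family of
# hyperelliptic curves with large integral parameter, without exceptions

Let `f ∈ ℚ[X]` be monic of degree `n = 2 g ≥ 4` with `n` distinct real roots which are not zero. Consider the curves
`C_t : y² = f(x) (x - 1 / t)` of genus `g`, `t = 1, 2, …`, and the curve `C_∞ : y² = f(x) x`. Assume that the ratios of
the periods of `C_∞` (of all de Rham classes) generate a field of transcendence degree at most `n - 2 = 2 g - 2`. This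
is the case for instance

* if the Jacobian of `C_∞` has complex multiplication (then the degree is at most `g`),
* if `g ≥ 3` and the Jacobian is isogenous to the power of an elliptic curve (then it is at most `3`),

and we prove that it is true for `f = T_{2 g + 1}(x) / (2^(2 g) x)`, for the Chebyshev polynomials and all `g ≥ 2`.

**Theorem.** Let `D` be given. For all `t ≥ t₀(f, D)` and for **all** number fields `K ⊂ ℂ` of degree at most `D`, the
smallest `K`-subtorsor `Ω_M` which contains the period matrix of `M = h^1(C_t)` is the torsor of all isomorphisms which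
respect the polarisations up to a factor. So `Ω_M = Ω^dRB_M = Ω^And_M = Ω^mot_M` (and `G_And(M) = GSp`), because all
these contain `Ω_M` and are contained in this torsor. More generally this is true for `M = h^1(C_{t_1}) ⊕ … ⊕ h^1(C_{t_N})`
for all `t_1, …, t_N` in a window, that is if `(t_i - t_j + 2)^E ≤ t_j`, `E = E(f, D, N)`, and `|t_i - t_j| ≥ G = G(f)`, for
`i ≠ j`.

All theorems of this kind so far (`HyperellipticSmallestSubtorsor`, `GeneralFamilies` and others) are about almost all
`t` and say nothing about a given one or about the members of a thin set.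

Proof (`Pool/Agent/Helper880_LF`). The period matrix of `C_t` is `C z_t V_t` where `C` is the period matrix of `C_∞`,
`V_t` is rational and `z_t` is the value at `1 / t` of a matrix of G-functions over `ℚ` with differential Galois group `Sp_n`.
By the theorem on linear independence of values of G-functions, all polynomial relations of bounded degree over `ℚ` of
`z_t` are trivial for large `t`. If the theorem is false there is a sequence of counterexamples `t_k → ∞`, `K_k`, `T_k`. In
the ultraproduct of the `ℂ` we get the generic point `z` of `Sp_n` over the ultraproduct `ℚ^*` of the `ℚ`, and the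
ultraproduct `W` of the spaces `C⁻¹ Lie(T_k) C`. For every `A ∈ sp_n` there is a derivation `δ` of `ℂ^*` over `ℚ^*` with
`δ z = A z`. As `T_k` is defined over a field of bounded degree, `W` is normalised by `A + C⁻¹ δ(C)`, although the degree
of the equations of `T_k` is not bounded. (One uses that the Lie algebra of `T_k` is defined over `K_k` and that it is
normalised by `X c⁻¹`, `X ∈ T_k`.) By assumption the `C⁻¹ δ(C)` are in a space of dimension at most `n - 1` which contains
the scalars. So the normaliser of `W` in `sp_n` has codimension at most `n - 2`, and we show that proper subalgebras of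
`sp_n` have codimension at least `n - 1`: hence `W` is normalised by `sp_n`. A second argument of the same kind for
commutators, which uses the theorem of Jordan on finite linear groups for the component groups, shows that `W` is not
central, so that it contains `sp_n`. The scalars come from the transcendence of `π`.

For the Chebyshev polynomials the period matrix is `L diag(A_0, …, A_{n-1}) R` with algebraic matrices `L`, `R`, as the
substitution `x = -cos θ` shows. The Legendre relations give a relation `A_i A_j = α A_k A_l` with algebraic `α`.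
-/

set_option autoImplicit false

open Polynomial Matrix

namespace Pool.Agent.Results.MP_f11a48_ag.AllLargeParameters

/-- `T` is (the set of complex points of) a `K`-subtorsor of `GL_B = Iso (M_dR, M_B)`: it is closed under `x y⁻¹ z`, and
it is defined in `GL_B` by polynomials with coefficients in `K`. -/
def IsSubtorsor (K : Subfield ℂ) {B : Type} [Fintype B] [DecidableEq B] (T : Set (Matrix B B ℂ)) : Prop :=
  (∀ x ∈ T, ∀ y ∈ T, ∀ z ∈ T, x * y⁻¹ * z ∈ T) ∧ ∃ I : Set (MvPolynomial (B × B) K), ∀ x : Matrix B B ℂ, x ∈ T ↔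
    IsUnit x ∧ ∀ p ∈ I, MvPolynomial.eval (fun b => x b.1 b.2) (MvPolynomial.map (algebraMap K ℂ) p) = 0

/-- `Ω` is the smallest `K`-subtorsor which contains the period matrix `c` -/
def IsOmega (K : Subfield ℂ) {B : Type} [Fintype B] [DecidableEq B] (c : Matrix B B ℂ) (Ω : Set (Matrix B B ℂ)) : Prop :=
  IsSubtorsor K Ω ∧ c ∈ Ω ∧ ∀ T : Set (Matrix B B ℂ), IsSubtorsor K T → c ∈ T → Ω ⊆ T

/-- the alternating form with entries `2 (-1)^r` at `(r, s)`, `|r - s| = 1` -/
def polB (n : ℕ) : Matrix (Fin n) (Fin n) ℚ :=
  Matrix.of fun r s => if (r : ℕ) = s + 1 ∨ (s : ℕ) = r + 1 then 2 * (-1) ^ (r : ℕ) else 0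

/-- the torsor of the block diagonal matrices which respect the polarisations, with the same multiplier -/
def polTorsor {n N : ℕ} (Q : Fin N → Matrix (Fin n) (Fin n) ℂ) : Set (Matrix (Fin n × Fin N) (Fin n × Fin N) ℂ) :=
  {x | ∃ (X : Fin N → Matrix (Fin n) (Fin n) ℂ) (μ : ℂ), μ ≠ 0 ∧ x = Matrix.blockDiagonal X ∧
    ∀ j, X j * Q j * (X j)ᵀ = μ • (polB n).map (algebraMap ℚ ℂ)}

/-- the branch points: `s` inserted at place `m` in the sequence of the `a i` -/
noncomputable def branch {n : ℕ} (a : Fin n → ℝ) (m : Fin (n + 1)) (s : ℝ) : Fin (n + 1) → ℝ :=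
  Fin.insertNth (α := fun _ => ℝ) m s a

/-- the period `∮ x^j dx / y`, `y² = ∏ (x - e i)`, over the loop around the segment `[e l, e (l + 1)]`, that is twice
the integral over the segment (principal branch of the square root) -/
noncomputable def period {n : ℕ} (e : Fin (n + 1) → ℝ) (l j : Fin n) : ℂ :=
  2 * ∫ x in (e l.castSucc)..(e l.succ), (x : ℂ) ^ (j : ℕ) / (((∏ i, (x - e i) : ℝ) : ℂ) ^ (1 / 2 : ℂ))

/-- the polarisation in terms of the forms `x^j dx / y`, `y² = F(x) = ∑ c_k x^k`: entries `(i - j)/2 * c_(i+j+2)` -/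
noncomputable def polDR (n : ℕ) (F : ℚ[X]) : Matrix (Fin n) (Fin n) ℚ :=
  Matrix.of fun i j => (((i : ℕ) : ℚ) - ((j : ℕ) : ℚ)) / 2 * F.coeff ((i : ℕ) + (j : ℕ) + 2)

/-- up to a common factor all entries of `c` are algebraic over a field generated by `r` numbers -/
def FewRatios {n : ℕ} (r : ℕ) (c : Matrix (Fin n) (Fin n) ℂ) : Prop :=
  ∃ (b : Fin r → ℂ) (κ : ℂ), κ ≠ 0 ∧ ∀ i j, IsAlgebraic (IntermediateField.adjoin ℚ (Set.range b)) (κ * c i j)

/-- The theorem for the curves `y² = f(x) (x - 1 / t)`, `f = ∏ (x - a i)`: for all `t_1, …, t_N` in a window,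
`|t_i - t_j| ≥ G`, `Ω_M` is the torsor of the polarisations over all `K` with `[K : ℚ] ≤ D`, for the product of the
curves. -/
def AllLarge (n : ℕ) (a : Fin n → ℝ) (m : Fin (n + 1)) (f : ℚ[X]) : Prop :=
  ∃ G : ℕ, ∀ N D : ℕ, 0 < N → ∃ E : ℕ, ∀ t : Fin N → ℕ, (∀ i j, i ≠ j → (G : ℤ) ≤ |(t i : ℤ) - t j|) →
    (∀ i j, (t i - t j + 2) ^ E ≤ t j) → (∀ j, StrictMono (branch a m (1 / (t j : ℝ)))) ∧
    ∀ K : Subfield ℂ, FiniteDimensional ℚ K → Module.finrank ℚ K ≤ D →
      IsOmega K (Matrix.blockDiagonal fun j => Matrix.of (period (branch a m (1 / (t j : ℝ)))))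
        (polTorsor fun j => (polDR n (f * (X - C (1 / (t j : ℚ))))).map (algebraMap ℚ ℂ))

/-- the roots `-cos ((2 k + 1) π / (4 g + 2))`, `k ≠ g`, of `T_{2 g + 1}(x) / x`, in increasing order -/
noncomputable def chebyshevRoot (g : ℕ) (i : Fin (2 * g)) : ℝ :=
  -Real.cos ((2 * ((((⟨g, by omega⟩ : Fin (2 * g + 1)).succAbove i : Fin (2 * g + 1)) : ℕ) : ℝ) + 1) * Real.pi /
    (2 * ((2 * g + 1 : ℕ) : ℝ)))

theorem result :
    (∀ n : ℕ, Even n → 4 ≤ n → ∀ (a : Fin n → ℝ) (m : Fin (n + 1)) (f : ℚ[X]),
      f.map (algebraMap ℚ ℝ) = ∏ i, (X - C (a i)) → StrictMono (branch a m 0) →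
      FewRatios (n - 2) (Matrix.of (period (branch a m 0))) → AllLarge n a m f) ∧
    -- an example for every genus at least two
    (∀ g : ℕ, 2 ≤ g → ∃ f : ℚ[X], C (2 ^ (2 * g)) * X * f = Chebyshev.T ℚ (2 * g + 1) ∧
      f.map (algebraMap ℚ ℝ) = ∏ i, (X - C (chebyshevRoot g i)) ∧ AllLarge (2 * g) (chebyshevRoot g) ⟨g, by omega⟩ f) := by
  refine ⟨fun n hn hn4 a m f hf h0 hfew => ?_, fun g hg => ?_⟩
  · exact Pool.Agent.Helper880_LF.NB.hyp_all hn hn4 hf h0 hfew
  · obtain ⟨f, hf1, hf2⟩ := Pool.Agent.Helper880_LF.NB.exists_f g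
    exact ⟨f, hf1, hf2, Pool.Agent.Helper880_LF.NB.cheb_all hg hf2⟩

end Pool.Agent.Results.MP_f11a48_ag.AllLargeParameters
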