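import Pool.Agent.Helper883_Det.Weil

set_option autoImplicit false

/-!
# Periods of abelian varieties: one class of degree four and the determinants decide

Let `A` be an abelian variety over the field `ℚ̄` of algebraic numbers and let `M = h^1(A)`. We
compare the torsor `Ω^{dRB}_M`, which is defined by all de Rham-Betti classes in the tensor
constructions of `M`, with the torsor `Ω^{And}_M` of motivated periods. By theorems of Deligne and
André the Hodge classes on the powers of `A` are motivated and de Rham-Betti classes, so that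
`Ω^{And}_M` is defined by the Hodge classes. As `M` is dual to `M(1)` it is sufficient to consider
classes in `M ^ {⊗ r} (w)`: such a class is given by a multilinear form `φ` with rational values in `r`
variables in `H_1(A, ℚ)` and by the array `c` of the coefficients (in `ℚ̄`) of its de Rham component,
and a point of a torsor is a pair `(F, t)` of an isomorphism `F` from `H^1_dR(A / ℚ̄) ⊗ ℂ` to
`H^1(A, ℂ)` and of a number `t` (the isomorphism for the Tate motive); the comparison isomorphism is
the point `(A.dR, 2 π i)`.

Nothing is assumed about periods: `AbVar` is the description of an abelian variety over `ℚ̄` by theta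
functions (see `Pool/Agent/Y102/AVDefs.lean`, where it is explained why every abelian variety has it),
and the transcendence theorem which is used is the theorem of Schneider and Lang, which is proved in
this repository.

Let `𝔤` be the Lie algebra of the endomorphisms of `H_1(A, ℚ)` that annihilate all classes which are at
the same time Hodge classes and de Rham-Betti classes (`InHodgeLie`); by the theorem of Deligne it is
the Lie algebra of the Hodge group of `A`. Let `𝔥 ⊆ 𝔤` be the Lie algebra of the endomorphisms which
annihilate all de Rham-Betti classes (`InPeriodLie`); it is the Lie algebra of the group of the torsor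
`Ω^{dRB}_M` (without the homotheties).

A class is *determinantal* if it is annihilated by the commutators `X Y - Y X` of all endomorphisms
`X`, `Y` of the vector space `H_1(A, ℚ)` which commute with the skew-symmetric elements of the centre
of `End(A) ⊗ ℚ`. These elements vanish on the factors of `A` of the types I, II and III in the
classification of Albert, and generate the centre `F` (a product of CM fields) for the factors of type
IV; so the determinantal classes are the invariants of `SL_F`, that is, by the first fundamental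
theorem, the linear combinations of products of determinants of the spaces `H_1(A, ℂ)_σ`, `σ : F → ℂ`
(and of the determinant of the part without factors of type IV). The determinantal classes are those
of the tensor constructions of the `F`-motive `det_F h^1(A)` of rank one, which is of CM type. Weil's
classes are of this kind.

**Theorem** (`result`). For every abelian variety `A` over `ℚ̄` there is a de Rham-Betti class `κ` in
`h^1(A) ^ {⊗ 4} (2)` (the Casimir class of the Lie algebra `𝔥`) such that

1. all de Rham-Betti classes (in all tensor constructions of `h^1(A)`) are Hodge classes if and only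
   if `κ` is a Hodge class and all determinantal de Rham-Betti classes are Hodge classes; and this is
   the case if and only if `Ω^{dRB}_M = Ω^{And}_M`;
2. `κ` is a Hodge class if and only if `𝔥` is an ideal of `𝔤`, and also if and only if the derived
   algebras of `𝔥` and `𝔤` coincide (`[𝔤, 𝔤] ⊆ 𝔥`);
3. the determinantal de Rham-Betti classes are Hodge classes if and only if `𝔥` contains the centre of
   `𝔤`;
4. this is true if `A` is of Weil type, that is, if the skew-symmetric elements of the centre of
   `End(A) ⊗ ℚ` have trace zero on the tangent space of `A` (for every `σ : F → ℂ` the eigenspaces of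
   `σ` and of its conjugate in the tangent space have the same dimension); then all determinantal
   forms are Hodge classes. In particular it is true if `A` has no factor of type IV.

So `Ω^{dRB}_M = Ω^{And}_M` for abelian varieties over `ℚ̄` is equivalent to the same statement for the
classes of degree four, `h^1(A) ^ {⊗ 4} (2)`, and for the motives of rank one `det_F h^1(A)`; and for
abelian varieties of Weil type, or without factors of type IV, the classes of degree four are
sufficient (`DegreeFourHodge`).

## Proof

By the theorem of Schneider and Lang (theorem of Bost) `𝔥` acts semisimply on `H_1(A, ℚ)` with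
commutant `End(A) ⊗ ℚ`. The Casimir class of `𝔥` is annihilated by exactly those skew-symmetric
endomorphisms which are the sum of an element of `𝔥` and of one which commutes with `𝔥`
(`AbVar.split_of_cas`, in the files of the starting point). So if `κ` is a Hodge class, then `𝔤` is
the sum of `𝔥` and the centre of `𝔤`. The main new step is `Helper883Det.ZA_mem`: a skew-symmetric
element `z` of the centre of `End(A) ⊗ ℚ` which annihilates the determinantal de Rham-Betti classes is in
`𝔥`. Let `φ` be a de Rham-Betti class and let `e_1, …, e_{2m}` be joint eigenvectors of the centre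
in `H_1(A, ℂ)`, with the characters `χ_1, …, χ_{2m}`, such that `φ(e_1, …, e_{2m})` is not zero. Then
`∑ χ_i` vanishes on the centre of `𝔥`. Let `d_i` be the dimension of the eigenspace of `χ_i`; the
product over `i` of the `n! / d_i`-th power of the determinant of the eigenspace of `χ_i` is a form in
`2 m n!` variables, annihilated by the derived algebra of `𝔥`, and by the centre of `𝔥` because of
`n! ∑ χ_i = 0`. Its rational components (its values composed with a rational linear form on `ℂ`) are
determinantal de Rham-Betti classes, so `z` annihilates it, and `∑ χ_i(z) = 0`. So `z` annihilates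
`φ`. For 4 one has to show that the rational components of the complex structure are sums of
commutators in the commutant `C` of the skew-symmetric central elements: this follows from the
nondegeneracy of the trace form of `C`.
-/

open Module Matrix Pool.Agent.Y102 Pool.Agent.W516.DR Pool.Agent.H204R3.GP

noncomputable section

namespace Pool.Agent.Results.MP_f11a48_ag.CasimirAndDeterminants

variable {g : ℕ} (A : AbVar g)

/-- The rational multilinear form `φ` in `r` variables in `H_1(A, ℚ)` and the array `c` of elements
of `ℚ̄` are compatible with the point `(F, t)`, in the twist `w`: the isomorphism given by `(F, t)`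
maps the element of `H^1_dR(A / ℚ̄) ^ {⊗ r} (w)` with the coordinates `c` to `φ`. -/
def Respects {r : ℕ} (F : Fin g ⊕ Fin g → (A.H1 →ₗ[ℚ] ℂ)) (t : ℂ) (w : ℤ)
    (c : (Fin r → Fin g ⊕ Fin g) → QBar) (φ : MultilinearMap ℚ (fun _ : Fin r => A.H1) ℚ) : Prop :=
  ∀ v, t ^ w * (φ v : ℂ) = ∑ J, algebraMap QBar ℂ (c J) * ∏ l, F (J l) (v l)

/-- `(c, φ)` is a de Rham-Betti class in `H^1(A) ^ {⊗ r} (w)`: it is compatible with the comparison
isomorphism. -/
def IsDRB {r : ℕ} (w : ℤ) (c : (Fin r → Fin g ⊕ Fin g) → QBar)
    (φ : MultilinearMap ℚ (fun _ : Fin r => A.H1) ℚ) : Prop :=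
  Respects A A.dR (2 * Real.pi * Complex.I) w c φ

/-- `φ` is a Hodge class: it extends to a real multilinear form on the tangent space which is
invariant under the multiplication by the complex numbers of absolute value `1`. -/
def IsHodge {κ : Type} (φ : MultilinearMap ℚ (fun _ : κ => A.H1) ℚ) : Prop :=
  IsHodgeTensor (A.per : A.H1 →+ (Fin g → ℂ)) φ

/-- The complex points of the torsor `Ω^{dRB}` of `h^1(A)`: the isomorphisms compatible with all
de Rham-Betti classes. -/
def OmegaDRB : Set ((Fin g ⊕ Fin g → (A.H1 →ₗ[ℚ] ℂ)) × ℂ) :=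
  {P | LinearIndependent ℂ P.1 ∧ P.2 ≠ 0 ∧
    ∀ (r : ℕ) (w : ℤ) (c : (Fin r → Fin g ⊕ Fin g) → QBar)
      (φ : MultilinearMap ℚ (fun _ : Fin r => A.H1) ℚ),
      IsDRB A w c φ → Respects A P.1 P.2 w c φ}

/-- The complex points of the torsor `Ω^{And}` of `h^1(A)`: the isomorphisms compatible with all
Hodge classes. -/
def OmegaAnd : Set ((Fin g ⊕ Fin g → (A.H1 →ₗ[ℚ] ℂ)) × ℂ) :=
  {P | LinearIndependent ℂ P.1 ∧ P.2 ≠ 0 ∧
    ∀ (r : ℕ) (w : ℤ) (c : (Fin r → Fin g ⊕ Fin g) → QBar)
      (φ : MultilinearMap ℚ (fun _ : Fin r => A.H1) ℚ),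
      IsDRB A w c φ → IsHodge A φ → Respects A P.1 P.2 w c φ}

/-- All de Rham-Betti classes, in all tensor constructions of `h^1(A)`, are Hodge classes. -/
def AllHodge : Prop :=
  ∀ (r : ℕ) (w : ℤ) (c : (Fin r → Fin g ⊕ Fin g) → QBar)
    (φ : MultilinearMap ℚ (fun _ : Fin r => A.H1) ℚ), IsDRB A w c φ → IsHodge A φ

/-- All de Rham-Betti classes in `h^1(A) ^ {⊗ 4} (2)` are Hodge classes. -/
def DegreeFourHodge : Prop :=
  ∀ (c : (Fin 4 → Fin g ⊕ Fin g) → QBar) (φ : MultilinearMap ℚ (fun _ : Fin 4 => A.H1) ℚ),
    IsDRB A 2 c φ → IsHodge A φ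

/-- The endomorphism `X` annihilates the form `φ` (as a derivation). -/
def Annihilates {κ : Type} [Fintype κ] [DecidableEq κ] (X : Module.End ℚ A.H1)
    (φ : MultilinearMap ℚ (fun _ : κ => A.H1) ℚ) : Prop :=
  ∀ v, ∑ l, φ (Function.update v l (X (v l))) = 0

/-- `P` is an endomorphism of `A`, up to isogeny: it respects the de Rham cohomology over the field of
algebraic numbers. (By a theorem of Bost, proved in this repository as `AbVar.hodge_end`, these are the
elements of `End(A) ⊗ ℚ`.) -/
def IsEndomorphism (P : Module.End ℚ A.H1) : Prop := IsDeRhamBettiEnd QBar A.dR P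

/-- `R` is a skew-symmetric element (for the Riemann form of the polarization) of the centre of the
algebra of the endomorphisms of `A`. -/
def IsSkewCentral (R : Module.End ℚ A.H1) : Prop :=
  IsEndomorphism A R ∧ (∀ Q, IsEndomorphism A Q → R * Q = Q * R) ∧
    ∀ u v, riemannForm A.lam A.η (A.per (R u)) (A.per v) +
      riemannForm A.lam A.η (A.per u) (A.per (R v)) = 0

/-- `X` commutes with the skew-symmetric elements of the centre of the algebra of the endomorphisms of
`A`. -/
def Commutes (X : Module.End ℚ A.H1) : Prop := ∀ R, IsSkewCentral A R → X * R = R * X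

/-- `φ` is determinantal: it is annihilated by all commutators of endomorphisms of the vector space
`H_1(A, ℚ)` which commute with the skew-symmetric elements of the centre. -/
def IsDeterminantal {r : ℕ} (φ : MultilinearMap ℚ (fun _ : Fin r => A.H1) ℚ) : Prop :=
  ∀ X Y, Commutes A X → Commutes A Y → Annihilates A (X * Y - Y * X) φ

/-- All determinantal de Rham-Betti classes are Hodge classes. -/
def DeterminantalHodge : Prop :=
  ∀ (r : ℕ) (w : ℤ) (c : (Fin r → Fin g ⊕ Fin g) → QBar)
    (φ : MultilinearMap ℚ (fun _ : Fin r => A.H1) ℚ),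
    IsDRB A w c φ → IsDeterminantal A φ → IsHodge A φ

/-- `X` is in the Lie algebra `𝔥`: it annihilates all de Rham-Betti classes. -/
def InPeriodLie (X : Module.End ℚ A.H1) : Prop :=
  ∀ (m : ℕ) (φ : MultilinearMap ℚ (fun _ : Fin m × Fin 2 => A.H1) ℚ),
    IsDeRhamBettiForm QBar A.dR (2 * Real.pi * Complex.I) m φ → Annihilates A X φ

/-- `X` is in the Lie algebra `𝔤`: it annihilates all classes that are Hodge classes and de Rham-Betti
classes. -/
def InHodgeLie (X : Module.End ℚ A.H1) : Prop :=
  ∀ (m : ℕ) (φ : MultilinearMap ℚ (fun _ : Fin m × Fin 2 => A.H1) ℚ), IsHodge A φ →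
    IsDeRhamBettiForm QBar A.dR (2 * Real.pi * Complex.I) m φ → Annihilates A X φ

/-- `𝔥` is an ideal of `𝔤`. -/
def IsIdeal : Prop :=
  ∀ X Y, InHodgeLie A X → InPeriodLie A Y → InPeriodLie A (X * Y - Y * X)

/-- `𝔥` contains the derived algebra of `𝔤`. -/
def ContainsDerived : Prop :=
  ∀ X Y, InHodgeLie A X → InHodgeLie A Y → InPeriodLie A (X * Y - Y * X)

/-- `𝔥` contains the centre of `𝔤`. -/
def ContainsCentre : Prop :=
  ∀ X, InHodgeLie A X → (∀ Y, InHodgeLie A Y → Y * X = X * Y) → InPeriodLie A X

/-- `A` is of Weil type: the skew-symmetric elements of the centre have trace zero on the tangent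
space. -/
def WeilType : Prop :=
  ∀ R, IsSkewCentral A R → ∀ M : (Fin g → ℂ) →ₗ[ℂ] (Fin g → ℂ),
    (∀ w, M (A.per w) = A.per (R w)) → LinearMap.trace ℂ (Fin g → ℂ) M = 0

/-- `A` has no factor of type IV: there is no skew-symmetric element of the centre except zero. -/
def NoTypeIV : Prop := ∀ R, IsSkewCentral A R → R = 0

/-- The class `κ` and the determinantal classes decide. -/
def Decides (κ : MultilinearMap ℚ (fun _ : Fin 4 => A.H1) ℚ) : Prop :=
  (AllHodge A ↔ IsHodge A κ ∧ DeterminantalHodge A) ∧
  (AllHodge A ↔ DegreeFourHodge A ∧ DeterminantalHodge A) ∧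
  (AllHodge A ↔ OmegaDRB A = OmegaAnd A) ∧
  (IsHodge A κ ↔ IsIdeal A) ∧
  (IsHodge A κ ↔ ContainsDerived A) ∧
  (DeterminantalHodge A ↔ ContainsCentre A) ∧
  (WeilType A → DeterminantalHodge A) ∧
  (WeilType A → ∀ (r : ℕ) (φ : MultilinearMap ℚ (fun _ : Fin r => A.H1) ℚ),
    IsDeterminantal A φ → IsHodge A φ) ∧
  (NoTypeIV A → WeilType A)

theorem skew_iff (R : Module.End ℚ A.H1) : IsSkewCentral A R ↔ R ∈ A.ZA := by
  have h1 : (∀ u v, riemannForm A.lam A.η (A.per (R u)) (A.per v) +
      riemannForm A.lam A.η (A.per u) (A.per (R v)) = 0) ↔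
      Pool.Agent.W516.KC.IsSkew A.om R := by
    constructor
    · intro h u v
      have h2 := h u v
      rw [AbVar.rf_eq, AbVar.rf_eq] at h2
      exact_mod_cast h2
    · intro h u v
      rw [AbVar.rf_eq, AbVar.rf_eq]
      exact_mod_cast h u v
  unfold IsSkewCentral IsEndomorphism
  rw [h1, AbVar.mem_ZA]
  constructor
  · rintro ⟨a, b, c⟩
    exact ⟨A.mem_EA.2 a, c, fun Q hQ => b Q (A.mem_EA.1 hQ)⟩
  · rintro ⟨a, b, c⟩
    exact ⟨A.mem_EA.1 a, fun Q hQ => c Q (A.mem_EA.2 hQ), b⟩

theorem det_iff {r : ℕ} (φ : MultilinearMap ℚ (fun _ : Fin r => A.H1) ℚ) :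
    IsDeterminantal A φ ↔ Helper883Det.Det A φ := by
  constructor
  · intro h X Y hX hY
    exact h X Y (fun R hR => hX R ((skew_iff A R).1 hR)) fun R hR => hY R ((skew_iff A R).1 hR)
  · intro h X Y hX hY
    exact h X Y (fun R hR => hX R ((skew_iff A R).2 hR)) fun R hR => hY R ((skew_iff A R).2 hR)

theorem detHodge_iff : DeterminantalHodge A ↔ Helper883Det.DetHodge A := by
  constructor
  · intro h
    exact Helper883Det.det_of_all A fun r w c φ hφ hd => h r w c φ hφ ((det_iff A φ).2 hd)
  · intro h r w c φ hφ hd
    exact Helper883Det.det_all_of A h (w := w) (c := c) hφ ((det_iff A φ).1 hd)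

theorem all_iff : AllHodge A ↔ Helper883Det.AllHodge A := (Helper883Det.all_iff_all A).symm

theorem omega_iff : AllHodge A ↔ OmegaDRB A = OmegaAnd A := by
  constructor
  · intro hall
    ext P
    constructor
    · rintro ⟨p1, p2, p3⟩
      exact ⟨p1, p2, fun r w c φ hφ _ => p3 r w c φ hφ⟩
    · rintro ⟨p1, p2, p3⟩
      exact ⟨p1, p2, fun r w c φ hφ => p3 r w c φ hφ (hall r w c φ hφ)⟩
  · intro h r w c φ hφ
    refine (Helper883Det.hodge_iff_Fz A (w := w) (a := c) hφ).2 fun z hz => ?_
    have hz0 : z ≠ 0 := by
      rintro rfl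
      rw [norm_zero] at hz
      exact zero_ne_one hz
    have h1 : (Helper883Det.Fz A z, (2 * Real.pi * Complex.I : ℂ)) ∈ OmegaAnd A :=
      ⟨Helper883Det.indep_Fz A hz0, AbVar.tau_ne, fun r w c φ hφ hH =>
        (Helper883Det.hodge_iff_Fz A (w := w) (a := c) hφ).1 hH z hz⟩
    rw [← h] at h1
    exact h1.2.2 r w c φ hφ

/-- **One class of degree four and the determinantal classes decide.** -/
theorem result (g : ℕ) (A : AbVar g) :
    ∃ (c : (Fin 4 → Fin g ⊕ Fin g) → QBar) (κ : MultilinearMap ℚ (fun _ : Fin 4 => A.H1) ℚ),
      IsDRB A 2 c κ ∧ Decides A κ := by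
  obtain ⟨c, hc⟩ := Helper883Det.cas4_drb A
  have e1 : AllHodge A ↔ IsHodge A (Helper883Det.cas4 A) ∧ DeterminantalHodge A := by
    rw [all_iff, detHodge_iff, Helper883Det.all_iff]
    exact and_congr_left' (Helper883Det.cas4_hodge A).symm
  have hweil : WeilType A → Helper883Det.TraceZero A := fun h R hR => h R ((skew_iff A R).2 hR)
  have e8 : WeilType A → ∀ (r : ℕ) (φ : MultilinearMap ℚ (fun _ : Fin r => A.H1) ℚ),
      IsDeterminantal A φ → IsHodge A φ := fun h r φ hφ =>
    Helper883Det.hodge_of_traceZero A (hweil h) ((det_iff A φ).1 hφ)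
  refine ⟨c, Helper883Det.cas4 A, hc, e1, ⟨fun h => ⟨fun c φ hφ => h 4 2 c φ hφ,
    fun r w c φ hφ _ => h r w c φ hφ⟩, fun h => e1.2 ⟨h.1 c _ hc, h.2⟩⟩, omega_iff A, ?_, ?_, ?_,
    fun h r w c φ _ hd => e8 h r φ hd, e8, ?_⟩
  · rw [show IsHodge A (Helper883Det.cas4 A) ↔ _ from Helper883Det.cas4_hodge A,
      Helper883Det.cas_iff_ideal]
    exact ⟨fun h X Y hX hY => h X hX Y hY, fun h X hX Y hY => h X Y hX hY⟩
  · rw [show IsHodge A (Helper883Det.cas4 A) ↔ _ from Helper883Det.cas4_hodge A,
      Helper883Det.cas_iff_derived]
    exact ⟨fun h X Y hX hY => h X hX Y hY, fun h X hX Y hY => h X Y hX hY⟩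
  · rw [detHodge_iff, Helper883Det.det_iff_centre]
    exact ⟨fun h X hX hc => h ⟨hX, hc⟩, fun h X hX => h X hX.1 hX.2⟩
  · intro h R hR M hM
    rw [h R hR] at hM
    have h1 : M.restrictScalars ℝ = 0 := A.ext_per fun w => by
      change M (A.per w) = 0
      rw [hM, LinearMap.zero_apply, map_zero]
    have h2 : M = 0 := by
      refine LinearMap.ext fun u => ?_
      exact congrArg (fun F : (Fin g → ℂ) →ₗ[ℝ] (Fin g → ℂ) => F u) h1
    rw [h2, map_zero]

end Pool.Agent.Results.MP_f11a48_ag.CasimirAndDeterminants
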