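import Pool.Agent.Helper883_K3.AsmS
import Pool.Agent.R918.AV

set_option autoImplicit false

/-!
# The torsor of periods and the torsor of motivated periods of products of powers of K3 surfaces, of
# elliptic curves and of abelian varieties of spin type, of Hilbert type and of CM type

Let `A` be an abelian variety over the field `K = ℚ̄` of algebraic numbers, and let `M = h^1(A)`. We
compare the torsor of periods `Ω^{dRB}_M` (defined by all de Rham-Betti classes in the tensor powers of
`M`) with the torsor of motivated periods `Ω^{And}_M`. By a theorem of André the Hodge classes on the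
powers of `A` are motivated, so that `Ω^{And}_M` is defined by the Hodge classes; by a theorem of
Deligne these are de Rham-Betti classes. As `M` is dual to `M(1)` it is sufficient to consider classes
in `M ^ {⊗ r} (w)`: such a class is given by a multilinear form `φ` with rational values in `r`
variables in `H_1(A, ℚ)` and by the array `c` of the coefficients (in `ℚ̄`) of its de Rham component,
and a point of a torsor is a pair `(F, t)` of an isomorphism `F` from `H^1_dR(A / ℚ̄) ⊗ ℂ` to
`H^1(A, ℂ)` and of a number `t` (the isomorphism for the Tate motive); the comparison isomorphism is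
the point `(A.dR, 2 π i)`.

Nothing is assumed about periods: `AbVar` is the description of an abelian variety over `ℚ̄` by theta
functions (see `Pool/Agent/Y102/AVDefs.lean`, where it is explained why every abelian variety has it),
and the transcendence theorem which is used is the theorem of Schneider and Lang, which is proved in
this repository.

Let `𝔤` be the Lie algebra of the endomorphisms of `H_1(A, ℚ)` that annihilate all classes which are at
the same time Hodge classes and de Rham-Betti classes (`InLie`); it is the Lie algebra of the Hodge
group of `A`.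

**Theorem.** Assume that `A` is isogenous to a product of any number of abelian varieties `A_i` (given by
orthogonal projections `e_i`), each of which is of one of the following types.

* Spin type `(k_i, r_i)`: the image of `𝔤 ⊗ ℂ` in `End(H_1(A_i, ℂ))` is a sum of `k_i` orthogonal Lie
  algebras `so(r_i)`, `r_i = 3` or `r_i ≥ 6`, which acts by tensor products of spin representations, and
  the image of `𝔤` is simple over `ℚ` (this is automatic if `k_i = 1`).
* Hilbert type of degree `l_i`: the space `H_1(A_i, ℂ)` is the direct sum of `l_i` spaces, the image of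
  `𝔤 ⊗ ℂ` is the sum of `l_i` Lie algebras `sl(2)`, each of which acts on one of these spaces by a
  multiple of the standard representation, and the image of `𝔤` is simple over `ℚ`. We assume that
  there is no factor of spin type `(l_i, 3)`.
* CM type: the image of `𝔤` is commutative. Let `B` be the product of all factors of this type. We
  assume: if an element `X` of `𝔤` has the same commutant as `𝔤` in `End(H_1(B, ℚ))`, each linear
  relation with rational coefficients between the eigenvalues of `X` on `H_1(B, ℂ)` holds for the
  corresponding eigenvalues of every element of `𝔤`. (The theorem `cmFactors_of_quadratic` says that this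
  is true if the `A_i` of this type are powers of elliptic curves with complex multiplication by different
  fields; for other examples see below.)

Then all de Rham-Betti classes in the tensor powers of `h^1(A)` are Hodge classes, and
`Ω^{dRB}_M = Ω^{And}_M`.

Nothing else is assumed about the relation between the factors: some of the Hodge groups may be
isomorphic, with or without a correspondence between the varieties. (The spin type `(l, 3)` and the
Hilbert type of degree `l` are given by the tensor product and by the direct sum of the standard
representations of `sl(2) × … × sl(2)`. For `l = 1` they are the same, and we say spin type `(1, 3)`. For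
`l > 1` a common subalgebra could not be excluded by means of endomorphisms of `A`.)

Examples.

* Elliptic curves without complex multiplication and abelian surfaces with quaternionic multiplication
  have spin type `(1, 3)` (the generators of the Clifford algebra are the matrices of Pauli).
* Abelian varieties without complex multiplication over `ℚ̄` of `GL_2`-type (for example, the simple
  factors over `ℚ̄` of the Jacobians of modular curves), and more generally simple abelian varieties
  with real multiplication by a field of degree equal to the dimension `l > 1`, and their variants with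
  quaternionic multiplication, have Hilbert type of degree `l`.
* The squares of the fourfolds of Mumford have spin type `(3, 3)`. (We may replace a variety by a power,
  since classes can be pulled back.)
* Powers of elliptic curves with complex multiplication by different fields are allowed as the factors of
  CM type, and so all elliptic curves are allowed. More generally, let `V` be the vector space over `ℚ`
  generated by the weights of `𝔤` on `H_1(B, ℂ)`, on which the Galois group of `ℚ` acts. The condition
  on the relations is satisfied if `V` is the direct sum of irreducible subspaces `V_j`, pairwise not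
  isomorphic, such that the weights of each factor are in one of them: the relations which hold for a
  given `X` form an invariant subspace of `V`, and if it contains `V_j`, then `X` is zero on a factor and
  commutes with all endomorphisms of it, unlike `𝔤`. If the factor has complex multiplication by a CM
  field `F` of degree twice the dimension, `V_j` is irreducible if `ℚ[Hom(F, ℂ)]⁻` is irreducible (the
  sign means that complex conjugation acts as `-1`). This is true for all simple abelian surfaces of CM
  type (`F` is cyclic or dihedral of degree four), and in all dimensions `n` for the fields `F` whose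
  Galois closure has the maximal degree `2 ^ n n!`.

## Products of K3 surfaces

Let `X_1, …, X_s` be K3 surfaces over `ℚ̄` (or hyperkähler varieties, or cubic fourfolds), let `T_i` be the
transcendental lattice of `X_i`, and let `F_i` be the field of the endomorphisms of the Hodge structure
`T_i`; it is totally real (in general it is `ℚ`) or a CM field. We assume for each `i` one of the
following conditions.

* `F_i = ℚ`, and the rank of `T_i` is not five (that is, the Picard number is not `17`).
* `F_i` is totally real, and the dimension of `T_i` over `F_i` is at least six (or it is three and the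
  degree of `F_i` is not two).
* The rank of `T_i` is two (that is, the Picard number is `20`), or, more generally, `F_i` is a CM field
  of degree equal to the rank of `T_i`, and the representation `ℚ[Hom(F_i, ℂ)]⁻` of the Galois group is
  irreducible; if its dimension is not one, it is not isomorphic to the representation given by another
  surface.

In the last case the Kuga-Satake variety is of CM type, and its weights `(± x_1 ± … ± x_n) / 2` are in
the space generated by the weights `± x_k` of `T_i`, which is this representation. (If the rank is two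
it is a power of an elliptic curve, and surfaces with the same field give together one factor.) In the
other cases, by the theorem of Zarhin, the Hodge group of `T_i` is the restriction of scalars of
`SO(T_i)` from `F_i` to `ℚ`. If `F_i = ℚ` and the rank is four, the even Clifford algebra is a quaternion
algebra over the quadratic extension of `ℚ` given by the discriminant, and the Lie algebra is given by
its elements of trace zero; if the extension is a field, the Kuga-Satake variety is of Hilbert type of
degree two, and if the discriminant is a square it is isogenous to a product of two abelian varieties of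
spin type `(1, 3)`. In
all other cases the Lie algebra of the Hodge group is simple over `F_i` and over `ℚ`. Let `r_i` be the
dimension of `T_i` over `F_i`, and let `A_i` be the Kuga-Satake variety; its first homology is
`C⁺(T_i)`, on which the Lie algebra acts by left multiplication. The space `T_i ⊗ ℂ` is the orthogonal
sum of `k_i = [F_i : ℚ]` spaces of dimension `r_i`; let `e_{σ, a}` (`a < r_i`) be orthonormal bases of
them, and let `E_{σ, a}` be the endomorphism `x ↦ e_{σ, a} x e` of `C⁺(T_i ⊗ ℂ)`, where `e` is a vector with
`e ^ 2 = 1`; then `E_{σ, a}² = 1`, different `E_{σ, a}` anticommute, and `E_{σ, a} E_{σ, b}` is the left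
multiplication by `e_{σ, a} e_{σ, b}` (`a ≠ b`), so that the image of `𝔤 ⊗ ℂ` is the span of these. So
the theorem applies to the product `A` of the `A_i`. By the theorems of Deligne and André the
Kuga-Satake correspondence is motivated, and so the motives of all products
`X_1 ^ {n_1} × … × X_s ^ {n_s}` are in the tensor category generated by `h^1(A)`, the Tate motives and
the Artin motives; hence **all de Rham-Betti classes on all products of powers of the `X_i`
are Hodge classes, and motivated.** If the Hodge group of the product is the product of the Hodge groups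
of the `X_i`, this means that these classes are generated by those on the factors. For a
single K3 surface see `Results/MP_bf54cf_ag/KugaSatake.lean`. It does not follow from the theorems
about the factors: the periods of different K3 surfaces could satisfy relations which do not come from
correspondences. It is known that a de Rham-Betti isometry between the second cohomology groups of two
K3 surfaces is a Hodge isometry up to sign (Kreutz, Shen and Vial); here there is no condition on the
classes.

## Proof

By the theorem of Schneider and Lang the Lie algebra `𝔥` of the endomorphisms that annihilate all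
de Rham-Betti classes is a subalgebra of `𝔤` which acts semisimply on `H_1(A, ℚ)` and has the same
commutant.

1. One factor: a Lie subalgebra of a sum of Lie algebras `so(n)`, `n ≥ 6`, which generates the even
parts of the Clifford algebras is the whole sum, and the same is true for sums of Lie algebras `sl(2)`
(theorems in this repository). So `𝔥` and `𝔤` have the same image in the endomorphisms of each
`H_1(A_i)`.

2. Two factors `i ≠ j` (`Helper883_K3/Rep.lean`, `AsmM.lean`, `AsmS.lean`). By the lemma of Goursat the
images of `𝔥` and of `𝔤` in the endomorphisms of `H_1(A_i × A_j)` are equal unless the first of them is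
the graph of an isomorphism; over `ℂ` this is an isomorphism `ψ` of sums of orthogonal Lie algebras,
which consists of a bijection of the simple ideals and of isomorphisms `θ` between them (`Match.lean`),
and so both factors are of spin type with `r_i = r_j = n` and `k_i = k_j`, or both are of Hilbert type,
of the same degree. The main point is that `ψ` is compatible with the spin representations: there is a
nonzero linear map `T` from `H_1(A_i, ℂ)` to `H_1(A_j, ℂ)` with `ψ(x) T = T x` for all `x`. Then `T`
commutes with `𝔥` and therefore with `𝔤`, so that the image of `𝔤` is also a graph, as its image on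
`A_i` is simple over `ℚ`. (For the Hilbert type it is sufficient to consider one summand of the space
`H_1(A_i, ℂ)`; see `Sum.lean`.) The classification of the automorphisms is not used: the elements
`x = E_{σ, a} E_{σ, b}` satisfy `ad(x)³ = -4 ad(x)`, and so do the elements `N = θ(x)`. Written for a
skew-symmetric matrix `N` of size `n` this equation is equivalent to a system of relations between the
coefficients, which imply `(n - 8) (N³ + 4 N) = 0`, if the trace of `N²` is normalized by means of the
Killing form (`Mat.lean`), and, if `n ≠ 8`, that the Pfaffians of size four of `N` vanish, which means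
that `N² = -1` in the Clifford algebra (`Sq.lean`). So the images of the elements `E_{σ, 1} E_{σ, a}`
satisfy the relations of the generators of a Clifford algebra, and the intertwining operator is
constructed by induction over the number of the generators (`Multi.lean`).

In rank `n = 8` there is triality, and the classification is again avoided: the matrix `N = θ(x)`
satisfies `N³ = -4 N` or `N² = -1` (`Eight.lean`), and the case is the same for all
`x = E_{σ, 1} E_{σ, a}` (`Types.lean`). In the first case we argue as before. If `θ⁻¹` is of the first
kind we do the same on the side of the target (`Tri.lean`). If `θ` and `θ⁻¹` are both of the second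
kind, then the standard representation twisted by `θ` is a module over the Clifford algebra, and so we
find intertwining operators `T_1` from `H_1(A_i, ℂ)` to the twist of the standard representation by `θ`,
and `T_2` from the standard representation to the twist of `H_1(A_j, ℂ)` by `θ`; then
`u ↦ ∑_a T_1(E_{σ, a} u) · T_2(e_a)`, with the Clifford multiplication by the vector
`T_1(E_{σ, a} u)`, is an intertwining operator, and it is not zero (`Tri2.lean`, `One.lean`). For
several colours the intertwining operators of the single colours are combined by passing to the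
subspace of `H_1(A_j, ℂ)` on which the images of the elements `E_{σ, 1} E_{σ, a}` satisfy the relations
of the generators of a Clifford algebra (`TwM.lean`).

3. Any number of factors (`Cas.lean`). For each element `Z` of `𝔤` and each pair `i, j` there is an
element of `𝔥` with the same action on `H_1(A_i × A_j)`. This implies that `Z` annihilates the Casimir
element of `𝔥`, which is a sum of components belonging to pairs `i, j`. So `𝔥` is an ideal of `𝔤`, and
`𝔤` is the sum of `𝔥` and of its centre.

4. The centre (`Torus.lean`, `AsmQ.lean`). It is zero on the factors of spin type and of Hilbert type.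
By a theorem in this repository the centre of `𝔤` is contained in `𝔥`, if each relation with integral
coefficients between the eigenvalues of a generic element of the centre holds for the eigenvalues of all
elements of the centre; this is the assumption on `B`. For powers of elliptic curves with complex
multiplication the eigenvalues are rational multiples of the numbers `√-d_i`, which are linearly
independent over `ℚ` if the fields are different. As brackets are zero on the factors of CM type, the
condition on the pairs in part 3 is satisfied also if one or both of the factors are of this type.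
-/

open Module Matrix TensorProduct Pool.Agent.Y102 Pool.Agent.W516.DR Pool.Agent.H204R3.GP

noncomputable section

namespace Pool.Agent.Results.MP_f11a48_ag.ProductsOfKThree

variable {g : ℕ} (A : AbVar g)

/-- The rational multilinear form `φ` in `r` variables in `H_1(A, ℚ)` and the array `c` of elements
of `ℚ̄` are compatible with the point `(F, t)`, in the twist `w`: the isomorphism given by `(F, t)`
maps the element of `H^1_dR(A / ℚ̄) ^ {⊗ r} (w)` with the coordinates `c` to `φ`. -/
def Respects {r : ℕ} (F : Fin g ⊕ Fin g → (A.H1 →ₗ[ℚ] ℂ)) (t : ℂ) (w : ℤ)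
    (c : (Fin r → Fin g ⊕ Fin g) → QBar) (φ : MultilinearMap ℚ (fun _ : Fin r => A.H1) ℚ) : Prop :=
  ∀ v, t ^ w * (φ v : ℂ) = ∑ J, algebraMap QBar ℂ (c J) * ∏ l, F (J l) (v l)

/-- `(c, φ)` is a de Rham-Betti class in `H^1(A) ^ {⊗ r} (w)`: it is compatible with the comparison
isomorphism. -/
def IsDRB {r : ℕ} (w : ℤ) (c : (Fin r → Fin g ⊕ Fin g) → QBar)
    (φ : MultilinearMap ℚ (fun _ : Fin r => A.H1) ℚ) : Prop :=
  Respects A A.dR (2 * Real.pi * Complex.I) w c φ

/-- `φ` is a Hodge class: it extends to a real multilinear form on the tangent space which is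
invariant under the multiplication by the complex numbers of absolute value `1`. -/
def IsHodge {κ : Type} (φ : MultilinearMap ℚ (fun _ : κ => A.H1) ℚ) : Prop :=
  IsHodgeTensor (A.per : A.H1 →+ (Fin g → ℂ)) φ

/-- The complex points of the torsor `Ω^{dRB}` of `h^1(A)`: the isomorphisms compatible with all
de Rham-Betti classes. -/
def OmegaDRB : Set ((Fin g ⊕ Fin g → (A.H1 →ₗ[ℚ] ℂ)) × ℂ) :=
  {P | LinearIndependent ℂ P.1 ∧ P.2 ≠ 0 ∧
    ∀ (r : ℕ) (w : ℤ) (c : (Fin r → Fin g ⊕ Fin g) → QBar)
      (φ : MultilinearMap ℚ (fun _ : Fin r => A.H1) ℚ),
      IsDRB A w c φ → Respects A P.1 P.2 w c φ}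

/-- The complex points of the torsor `Ω^{And}` of `h^1(A)`: the isomorphisms compatible with all
Hodge classes. -/
def OmegaAnd : Set ((Fin g ⊕ Fin g → (A.H1 →ₗ[ℚ] ℂ)) × ℂ) :=
  {P | LinearIndependent ℂ P.1 ∧ P.2 ≠ 0 ∧
    ∀ (r : ℕ) (w : ℤ) (c : (Fin r → Fin g ⊕ Fin g) → QBar)
      (φ : MultilinearMap ℚ (fun _ : Fin r => A.H1) ℚ),
      IsDRB A w c φ → IsHodge A φ → Respects A P.1 P.2 w c φ}

/-- The endomorphism `X` annihilates the form `φ` (as a derivation). -/
def Annihilates {κ : Type} [Fintype κ] [DecidableEq κ] (X : Module.End ℚ A.H1)
    (φ : MultilinearMap ℚ (fun _ : κ => A.H1) ℚ) : Prop :=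
  ∀ v, ∑ l, φ (Function.update v l (X (v l))) = 0

/-- `X` is in the Lie algebra `𝔤`: it annihilates all classes in `H^1(A) ^ {⊗ 2m} (m)` that are Hodge
classes and de Rham-Betti classes. -/
def InLie (X : Module.End ℚ A.H1) : Prop :=
  ∀ (m : ℕ) (φ : MultilinearMap ℚ (fun _ : Fin m × Fin 2 => A.H1) ℚ), IsHodge A φ →
    IsDeRhamBettiForm QBar A.dR (2 * Real.pi * Complex.I) m φ → Annihilates A X φ

/-- The algebra of the endomorphisms of `H_1(A, ℂ)`, as matrices for the basis of the lattice. -/
abbrev EndC (_ : AbVar g) : Type := Matrix (Fin (2 * g)) (Fin (2 * g)) ℂ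

/-- The matrix of the extension of an endomorphism of `H_1(A, ℚ)` to `H_1(A, ℂ)`. -/
def toC (X : Module.End ℚ A.H1) : EndC A := Matrix.of fun i j => (X (Pi.single j 1) i : ℂ)

/-- The complex Lie algebra `𝔤 ⊗ ℂ`, acting on `H_1(A, ℂ)`. -/
def lieC : Submodule ℂ (EndC A) := Submodule.span ℂ {Y | ∃ X, InLie A X ∧ Y = toC A X}

/-- The `e i` are the projections of a decomposition of `A` into a product of nonzero abelian
varieties, up to isogeny. -/
def Decomposes {s : ℕ} (e : Fin s → Module.End ℚ A.H1) : Prop :=
  ∑ i, e i = 1 ∧ (∀ i, e i ≠ 0 ∧ e i * e i = e i) ∧ (∀ i j, i ≠ j → e i * e j = 0) ∧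
    ∀ X, InLie A X → ∀ i, X * e i = e i * X

/-- The factor given by `e` is of spin type: the `E σ a` (`σ < k`, `a < r`) are the generators of a
Clifford algebra acting on the factor, and the image of `𝔤 ⊗ ℂ` is spanned by the products of two
different generators with the same `σ`. -/
def SpinFactor {k r : ℕ} (e : Module.End ℚ A.H1) (E : Fin k → Fin r → EndC A) : Prop :=
  (∀ σ a, E σ a * E σ a = toC A e) ∧
  (∀ σ a τ b, (σ, a) ≠ (τ, b) → E σ a * E τ b = -(E τ b * E σ a)) ∧
  (∀ σ a, toC A e * E σ a = E σ a ∧ E σ a * toC A e = E σ a) ∧
  Submodule.span ℂ {Y | ∃ X ∈ lieC A, Y = X * toC A e} =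
    Submodule.span ℂ {Y | ∃ σ a b, a ≠ b ∧ Y = E σ a * E σ b}

/-- `Y` is in the image `𝔤 e` of `𝔤` in the endomorphisms of the factor given by `e`. -/
def InImage (e Y : Module.End ℚ A.H1) : Prop := ∃ X, InLie A X ∧ Y = X * e

/-- The space `J` contains the brackets of its elements with the elements of `𝔤`. -/
def Normalized (J : Submodule ℚ (Module.End ℚ A.H1)) : Prop :=
  ∀ X, InLie A X → ∀ Y ∈ J, X * Y - Y * X ∈ J

/-- The image `𝔤 e` of `𝔤` in the endomorphisms of the factor given by `e` is a simple Lie algebra over
`ℚ`: its ideals `J` are zero or contain `𝔤 e`. -/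
def SimpleImage (e : Module.End ℚ A.H1) : Prop :=
  ∀ J : Submodule ℚ (Module.End ℚ A.H1), (∀ Y ∈ J, InImage A e Y) → Normalized A J →
    J = ⊥ ∨ ∀ Y, InImage A e Y → Y ∈ J

/-- The `e i` give factors of spin type: the ranks `r` are three or at least six, and the images of `𝔤`
are simple over `ℚ` (this is automatic if `k = 1`). -/
def SpinFactors {s : ℕ} (e : Fin s → Module.End ℚ A.H1) (k r : Fin s → ℕ)
    (E : ∀ i, Fin (k i) → Fin (r i) → EndC A) : Prop :=
  (∀ i, SpinFactor A (e i) (E i)) ∧ (∀ i, r i = 3 ∨ 6 ≤ r i) ∧
    ∀ i, k i = 1 ∨ SimpleImage A (e i)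

/-- The factor given by `e` is of Hilbert type: over `ℂ` its homology is the direct sum of the images of
the projections `P σ` (`σ < l`), the operators `E σ a` (`a < 3`) act on the image of `P σ` like the
matrices of Pauli, and the image of `𝔤 ⊗ ℂ` is spanned by the products of two different `E σ a` with the
same `σ`; so it is a sum of Lie algebras `sl(2)`. -/
def HilbertFactor {l : ℕ} (e : Module.End ℚ A.H1) (P : Fin l → EndC A) (E : Fin l → Fin 3 → EndC A) :
    Prop :=
  ∑ σ, P σ = toC A e ∧ (∀ σ, P σ ≠ 0) ∧ (∀ σ τ, σ ≠ τ → P σ * P τ = 0) ∧
  (∀ σ a, E σ a * E σ a = P σ) ∧ (∀ σ a b, a ≠ b → E σ a * E σ b = -(E σ b * E σ a)) ∧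
  (∀ σ a, P σ * E σ a = E σ a ∧ E σ a * P σ = E σ a) ∧
  Submodule.span ℂ {Y | ∃ X ∈ lieC A, Y = X * toC A e} =
    Submodule.span ℂ {Y | ∃ σ a b, a ≠ b ∧ Y = E σ a * E σ b}

/-- The `e i` give factors of Hilbert type, and the images of `𝔤` are simple over `ℚ`. -/
def HilbertFactors {u : ℕ} (e : Fin u → Module.End ℚ A.H1) (l : Fin u → ℕ)
    (P : ∀ i, Fin (l i) → EndC A) (E : ∀ i, Fin (l i) → Fin 3 → EndC A) : Prop :=
  (∀ i, HilbertFactor A (e i) (P i) (E i)) ∧ ∀ i, SimpleImage A (e i)

/-- The eigenvalues of `Y` on the image of `f` in `H_1(A, ℂ)` are obtained from those of `X` by a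
`ℚ`-linear map; this means that each relation with rational coefficients between the eigenvalues of `X`
holds for the corresponding eigenvalues of `Y`. -/
def RelationsHold (f X Y : Module.End ℚ A.H1) : Prop :=
  ∃ F : ℂ →ₗ[ℚ] ℂ, ∀ (v : Fin (2 * g) → ℂ) (x y : ℂ), v ≠ 0 → toC A f *ᵥ v = v →
    toC A X *ᵥ v = x • v → toC A Y *ᵥ v = y • v → F x = y

/-- `X` has the same commutant as `𝔤` in the endomorphisms of the image of `f`. -/
def Generic (f X : Module.End ℚ A.H1) : Prop :=
  ∀ T : Module.End ℚ A.H1, T * f = T → f * T = T → T * X = X * T → ∀ Y, InLie A Y → T * Y = Y * T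

/-- The `e i` give factors with complex multiplication (the images of `𝔤` are commutative), and
their product satisfies the condition on the relations between eigenvalues: the relations which hold for
one generic element of `𝔤` hold for all elements of `𝔤`. -/
def CMFactors {t : ℕ} (e : Fin t → Module.End ℚ A.H1) : Prop :=
  (∀ i X Y, InLie A X → InLie A Y → (X * Y - Y * X) * e i = 0) ∧
    ∀ X, InLie A X → Generic A (∑ i, e i) X → ∀ Y, InLie A Y → RelationsHold A (∑ i, e i) X Y

/-- The abelian variety is a product of `s` abelian varieties of spin type, of `u` abelian varieties of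
Hilbert type and of `t` abelian varieties with complex multiplication; the spin type `(l, 3)` and the
Hilbert type of degree `l` do not both occur. -/
def IsProduct : Prop :=
  ∃ (s u t : ℕ) (e : Fin (s + u + t) → Module.End ℚ A.H1) (k r : Fin s → ℕ)
    (E : ∀ i, Fin (k i) → Fin (r i) → EndC A) (l : Fin u → ℕ) (P : ∀ i, Fin (l i) → EndC A)
    (F : ∀ i, Fin (l i) → Fin 3 → EndC A),
    Decomposes A e ∧ SpinFactors A (fun i => e (Fin.castAdd t (Fin.castAdd u i))) k r E ∧
      HilbertFactors A (fun i => e (Fin.castAdd t (Fin.natAdd s i))) l P F ∧
      CMFactors A (fun i => e (Fin.natAdd (s + u) i)) ∧ ∀ i j, ¬ (r i = 3 ∧ k i = l j)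

/-- The factor given by `f` is of quadratic type (a power of an elliptic curve with complex
multiplication by the field `ℚ(√-d)`): the image of `𝔤` is contained in the line spanned by an
endomorphism `J` of the factor with `J² = -d`. -/
def QuadraticFactor (f J : Module.End ℚ A.H1) (d : ℚ) : Prop :=
  0 < d ∧ J * J = -(d • f) ∧ f * J = J ∧ J * f = J ∧ ∀ Y, InImage A f Y → ∃ c : ℚ, Y = c • J

/-- The `e i` give factors of quadratic type, with different fields. -/
def QuadraticFactors {t : ℕ} (e J : Fin t → Module.End ℚ A.H1) (d : Fin t → ℚ) : Prop :=
  (∀ i, QuadraticFactor A (e i) (J i) (d i)) ∧ ∀ i j, i ≠ j → ¬ IsSquare (d i * d j)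

theorem repr_bc (X : Module.End ℚ A.H1) (v : ℂ ⊗[ℚ] A.H1) :
    toC A X *ᵥ (Algebra.TensorProduct.basis ℂ (Pi.basisFun ℚ (Fin (2 * g)))).equivFun v =
      (Algebra.TensorProduct.basis ℂ (Pi.basisFun ℚ (Fin (2 * g)))).equivFun
        (X.baseChange ℂ v) := by
  have h1 : LinearMap.toMatrix (Algebra.TensorProduct.basis ℂ (Pi.basisFun ℚ (Fin (2 * g))))
      (Algebra.TensorProduct.basis ℂ (Pi.basisFun ℚ (Fin (2 * g)))) (X.baseChange ℂ) =
      toC A X := by
    have h2 : matE (2 * g) (toC A X) = X.baseChange ℂ := matE_toC X
    rw [← h2]
    exact (LinearMap.toMatrixAlgEquiv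
      (Algebra.TensorProduct.basis ℂ (Pi.basisFun ℚ (Fin (2 * g))))).apply_symm_apply _
  rw [← h1]
  exact LinearMap.toMatrix_mulVec_repr _ _ _ _

theorem relationsHold_iff {f X Y : Module.End ℚ A.H1} :
    RelationsHold A f X Y ↔ Helper883K.Domin A f X Y := by
  constructor
  · rintro ⟨F, hF⟩
    refine ⟨F, fun v x y h0 h1 h2 h3 => hF
      ((Algebra.TensorProduct.basis ℂ (Pi.basisFun ℚ (Fin (2 * g)))).equivFun v) x y ?_ ?_ ?_ ?_⟩
    · exact fun h => h0 ((map_eq_zero_iff _ (LinearEquiv.injective _)).1 h)
    · rw [repr_bc, h1]
    · rw [repr_bc, h2, map_smul]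
    · rw [repr_bc, h3, map_smul]
  · rintro ⟨F, hF⟩
    refine ⟨F, fun v x y h0 h1 h2 h3 => ?_⟩
    obtain ⟨w, rfl⟩ := LinearEquiv.surjective
      (Algebra.TensorProduct.basis ℂ (Pi.basisFun ℚ (Fin (2 * g)))).equivFun v
    rw [repr_bc] at h1 h2 h3
    rw [← map_smul] at h2 h3
    refine hF w x y (fun h => h0 (by rw [h, map_zero])) (LinearEquiv.injective _ h1)
      (LinearEquiv.injective _ h2) (LinearEquiv.injective _ h3)

/-- **Powers of elliptic curves with complex multiplication by different fields satisfy the condition
on the relations between eigenvalues.** -/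
theorem cmFactors_of_quadratic {t : ℕ} {e J : Fin t → Module.End ℚ A.H1} {d : Fin t → ℚ}
    (he : ∀ i, e i ≠ 0 ∧ e i * e i = e i) (horth : ∀ i j, i ≠ j → e i * e j = 0)
    (hcomm : ∀ X, InLie A X → ∀ i, X * e i = e i * X) (h : QuadraticFactors A e J d) :
    CMFactors A e := by
  have h1 : Helper883K.QuadFactors A e J d := ⟨fun j => (he j).2, fun j => (he j).1,
    fun X hX j => hcomm X hX j, fun j => (h.1 j).1, fun j => (h.1 j).2.1, fun j => (h.1 j).2.2.1,
    fun j => (h.1 j).2.2.2.1, h.2, fun j X hX => (h.1 j).2.2.2.2 _ ⟨X, hX, rfl⟩⟩
  have h2 := h1.torus horth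
  exact ⟨fun i X Y hX hY => h2.br i X hX Y hY, fun X hX hg Y hY =>
    (relationsHold_iff A).2 (h2.rel X hX (fun T t1 t2 t3 Y hY => hg T t1 t2 t3 Y hY) Y hY)⟩

theorem simpleOn {e : Module.End ℚ A.H1} (h : SimpleImage A e) : Helper883K.SimpleOn A e := by
  intro J j1 j2
  rcases h J j1 j2 with h | h
  · left
    rw [h]
    exact fun Y hY => (Submodule.mem_bot ℚ).1 hY
  · exact Or.inr fun X hX => h _ ⟨X, hX, rfl⟩

theorem map_lie' {k n : ℕ} {e : Module.End ℚ A.H1} {E : Fin k → Fin n → EndC A}
    (h : Submodule.span ℂ {Y | ∃ X ∈ lieC A, Y = X * toC A e} =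
      Submodule.span ℂ {Y | ∃ σ a b, a ≠ b ∧ Y = E σ a * E σ b}) :
    (cx A.NA).map (LinearMap.mulRight ℂ (e.baseChange ℂ)) =
      Submodule.span ℂ {Y | ∃ σ a b, a ≠ b ∧
        Y = matE (2 * g) (E σ a) * matE (2 * g) (E σ b)} := by
  have hto : ∀ X : Module.End ℚ A.H1, matE (2 * g) (toC A X) = X.baseChange ℂ := fun X =>
    matE_toC X
  have hlie : (lieC A).map (matE (2 * g)).toLinearMap = cx A.NA := map_lie A.NA
  have e1 : (cx A.NA).map (LinearMap.mulRight ℂ (e.baseChange ℂ)) =
      (Submodule.span ℂ {Y | ∃ X ∈ lieC A, Y = X * toC A e}).map (matE (2 * g)).toLinearMap := by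
    have e2 : Submodule.span ℂ {Y | ∃ X ∈ lieC A, Y = X * toC A e} =
        (lieC A).map (LinearMap.mulRight ℂ (toC A e)) := by
      refine le_antisymm (Submodule.span_le.2 ?_) ?_
      · rintro _ ⟨X, hX, rfl⟩
        exact ⟨X, hX, rfl⟩
      · rintro _ ⟨X, hX, rfl⟩
        exact Submodule.subset_span ⟨X, hX, rfl⟩
    rw [e2, ← hlie, ← Submodule.map_comp, ← Submodule.map_comp]
    congr 1
    refine LinearMap.ext fun X => ?_
    rw [LinearMap.comp_apply, LinearMap.comp_apply, LinearMap.mulRight_apply,
      LinearMap.mulRight_apply, ← hto]
    exact (map_mul (matE (2 * g)) _ _).symm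
  rw [e1, h, Submodule.map_span]
  congr 1
  ext Y
  constructor
  · rintro ⟨_, ⟨σ, a, b, hab, rfl⟩, rfl⟩
    exact ⟨σ, a, b, hab, map_mul (matE (2 * g)) _ _⟩
  · rintro ⟨σ, a, b, hab, rfl⟩
    exact ⟨_, ⟨σ, a, b, hab, rfl⟩, map_mul (matE (2 * g)) _ _⟩

theorem NA_le (h : IsProduct A) : A.NA ≤ A.LA := by
  obtain ⟨s, u, t, e, k, r, E, l, P, F, ⟨hs, h1, h2, h3⟩, ⟨h4, h6, h9⟩, ⟨h5, h7⟩, ⟨q1, q2⟩,
    h8⟩ := h
  have hto : ∀ X : Module.End ℚ A.H1, matE (2 * g) (toC A X) = X.baseChange ℂ := fun X =>
    matE_toC X
  refine Helper883K.NA_le_all (A := A) (e := e) (k := k) (r := r) (l := l)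
    (E := fun i σ a => matE (2 * g) (E i σ a)) (P := fun i σ => matE (2 * g) (P i σ))
    (F := fun i σ a => matE (2 * g) (F i σ a)) hs h2 ?_ h6
    (fun i => (h9 i).imp_right fun h => simpleOn A h) ?_ h8
    ⟨fun j => (h1 _).2, fun i j hij => h2 _ _ fun h => hij (Fin.natAdd_injective t (s + u) h),
      fun X hX j => h3 X hX _, fun j X hX Y hY => q1 j X Y hX hY,
      fun X hX hg Y hY => (relationsHold_iff A).1
        (q2 X hX (fun T t1 t2 t3 Y hY => hg T t1 t2 t3 Y hY) Y hY)⟩
  · refine ⟨fun i => (h1 _).2, fun i j hij => h2 _ _ fun h => hij
      (Fin.castAdd_injective s u (Fin.castAdd_injective (s + u) t h)),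
      fun i => (h1 _).1, fun X hX i => h3 X hX _, fun i => ?_, fun i => map_lie' A (h4 i).2.2.2⟩
    obtain ⟨a1, a2, a3, a4⟩ := h4 i
    refine ⟨fun σ a => ?_, fun σ a τ b hab => ?_, fun σ a => ?_, fun σ a => ?_⟩
    · rw [← map_mul, a1, hto]
    · rw [← map_mul, a2 σ a τ b hab, map_neg, map_mul]
    · rw [← hto, ← map_mul, (a3 σ a).1]
    · rw [← hto, ← map_mul, (a3 σ a).2]
  · refine ⟨fun i => (h1 _).2, fun i j hij => h2 _ _ fun h => hij
      (Fin.natAdd_injective u s (Fin.castAdd_injective (s + u) t h)),
      fun i => (h1 _).1, fun X hX i => h3 X hX _, fun i => ?_,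
      fun i => map_lie' A (h5 i).2.2.2.2.2.2, fun i => simpleOn A (h7 i)⟩
    obtain ⟨a1, a2, a3, a4, a5, a6, a7⟩ := h5 i
    refine ⟨?_, fun σ h0 => a2 σ ((map_eq_zero_iff _ (matE (2 * g)).injective).1 h0),
      fun σ τ hst => ?_, fun σ a => ?_, fun σ a b hab => ?_, fun σ a => ?_, fun σ a => ?_⟩
    · rw [← map_sum, a1, hto]
    · rw [← map_mul, a3 σ τ hst, map_zero]
    · rw [← map_mul, a4]
    · rw [← map_mul, a5 σ a b hab, map_neg, map_mul]
    · rw [← map_mul, (a6 σ a).1]
    · rw [← map_mul, (a6 σ a).2]

/-- **De Rham-Betti classes are Hodge classes, and `Ω^{dRB} = Ω^{And}`, for `h^1` of all products of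
abelian varieties of spin type, of abelian varieties of Hilbert type and of abelian varieties with
complex multiplication (with a condition on the relations between the eigenvalues, which is satisfied
for elliptic curves).** -/
theorem result (g : ℕ) (A : AbVar g) (h : IsProduct A) :
    (∀ (r : ℕ) (w : ℤ) (c : (Fin r → Fin g ⊕ Fin g) → QBar)
      (φ : MultilinearMap ℚ (fun _ : Fin r => A.H1) ℚ), IsDRB A w c φ → IsHodge A φ) ∧
    OmegaDRB A = OmegaAnd A := by
  have hNA := NA_le A h
  have hA : ∀ (m : ℕ) (φ : MultilinearMap ℚ (fun _ : Fin m × Fin 2 => A.H1) ℚ),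
      IsDeRhamBettiForm QBar A.dR tau m φ → IsHodgeTensor (A.per : A.H1 →+ (Fin g → ℂ)) φ :=
    fun m φ hφ => hodge_of_kills _ A.isRationalStructure φ fun Z hZ => hNA (A.MA_le_NA hZ) m φ hφ
  have hall : ∀ (r : ℕ) (w : ℤ) (c : (Fin r → Fin g ⊕ Fin g) → QBar)
      (φ : MultilinearMap ℚ (fun _ : Fin r => A.H1) ℚ), IsDRB A w c φ → IsHodge A φ :=
    fun r w c φ hφ => R918.hodge_all_of hA hφ
  refine ⟨hall, ?_⟩
  ext P
  constructor
  · rintro ⟨p1, p2, p3⟩
    exact ⟨p1, p2, fun r w c φ hφ _ => p3 r w c φ hφ⟩
  · rintro ⟨p1, p2, p3⟩
    exact ⟨p1, p2, fun r w c φ hφ => p3 r w c φ hφ (hall r w c φ hφ)⟩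

end Pool.Agent.Results.MP_f11a48_ag.ProductsOfKThree
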